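import Pool.Agent.N300.UN.All
import Pool.Agent.H898R3.Mix

/-!
# `C([0,1]^d) * (ℂ ⊕ ℂ)^{*∞} ≅ (ℂ ⊕ ℂ)^{*∞}`

Idea.  `(ℂ ⊕ ℂ) * (ℂ ⊕ ℂ)` contains a copy of `C([0,1])`, so `(ℂ ⊕ ℂ)^{*∞}` absorbs
`C([0,1])^{*∞}`.  Maps `C([0,1]^d) → D * C([0,1])^{*∞}` with the same trace are approximately
unitarily equivalent (see `Pool.Agent.Results.MP_401a3a_an.ApproxEquivalence`); by a measure
preserving curve `[0,1] → [0,1]^d` the copy of `C([0,1]^d)` is therefore approximately conjugate into
a copy of `C([0,1])`, by unitaries which may be taken close to the commutant of what is already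
fixed; an intertwining argument absorbs `C([0,1]^d)`.
-/

set_option autoImplicit false

open scoped ComplexConjugate ComplexOrder

noncomputable section

namespace Pool.Agent.Results.MP_1cc182_an.CubeAbsorption

/-- `(A, φ)` with the embeddings `e j : D → A`, `j ∈ κ`, is the reduced free power (Avitzour,
Voiculescu) `(D, t)^{*κ}`: `φ` is a state which restricts to `t` on each copy, the copies are free
with respect to `φ` (alternating products of centred elements have expectation zero), they generate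
`A` as a C*-algebra, and the GNS representation of `φ` is faithful. -/
structure IsReducedFreePower {κ D : Type} [CStarAlgebra D] (t : D → ℂ) {A : Type} [CStarAlgebra A]
    (φ : A →ₗ[ℂ] ℂ) (e : κ → D →⋆ₐ[ℂ] A) : Prop where
  one : φ 1 = 1
  pos : ∀ x, 0 ≤ φ (star x * x)
  marginal : ∀ j d, φ (e j d) = t d
  free : ∀ w : List (κ × D), w ≠ [] → w.IsChain (fun a b => a.1 ≠ b.1) →
    (∀ z ∈ w, t z.2 = 0) → φ ((w.map fun z => e z.1 z.2).prod) = 0
  generating : (⨆ j, (e j).range).topologicalClosure = (⊤ : StarSubalgebra ℂ A)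
  gns_faithful : ∀ a, (∀ x, φ (star (a * x) * (a * x)) = 0) → a = 0

/-- The value of an embedded letter. -/
def letter {A B E : Type} [CStarAlgebra A] [CStarAlgebra B] [CStarAlgebra E] (i : A →⋆ₐ[ℂ] E)
    (j : B →⋆ₐ[ℂ] E) : A ⊕ B → E
  | Sum.inl a => i a
  | Sum.inr b => j b

/-- `(E, θ)` with the embeddings `i : A → E` and `j : B → E` is the reduced free product (Avitzour,
Voiculescu) of `(A, φ)` and `(B, ψ)`: `θ` is a state which restricts to `φ` on `A` and to `ψ` on
`B`, the two algebras are free with respect to `θ` (alternating products of centred elements have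
expectation zero), they generate `E` as a C*-algebra, and the GNS representation of `θ` is
faithful. -/
structure IsReducedFreeProduct {A B : Type} [CStarAlgebra A] [CStarAlgebra B] (φ : A → ℂ)
    (ψ : B → ℂ) {E : Type} [CStarAlgebra E] (θ : E →ₗ[ℂ] ℂ) (i : A →⋆ₐ[ℂ] E)
    (j : B →⋆ₐ[ℂ] E) : Prop where
  one : θ 1 = 1
  pos : ∀ x, 0 ≤ θ (star x * x)
  left : ∀ a, θ (i a) = φ a
  right : ∀ b, θ (j b) = ψ b
  free : ∀ w : List (A ⊕ B), w ≠ [] → w.IsChain (fun x y => x.isLeft ≠ y.isLeft) →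
    (∀ z ∈ w, Sum.elim φ ψ z = 0) → θ ((w.map (letter i j)).prod) = 0
  generating : (i.range ⊔ j.range).topologicalClosure = (⊤ : StarSubalgebra ℂ E)
  gns_faithful : ∀ a, (∀ x, θ (star (a * x) * (a * x)) = 0) → a = 0

/-- The tracial state `(a, b) ↦ (a + b) / 2` on `ℂ ⊕ ℂ`. -/
def half (x : ℂ × ℂ) : ℂ := (x.1 + x.2) / 2

/-- The Lebesgue trace `f ↦ ∫_{[0,1]^d} f` on `C([0,1]^d)`. -/
def lebCube (d : ℕ) (f : C(Fin d → unitInterval, ℂ)) : ℂ := ∫ x : Fin d → unitInterval, f x

open Pool.Agent.H923R2 Pool.Agent.H898R3.Mix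

theorem gen_eq {κ D A : Type} [CStarAlgebra D] [CStarAlgebra A] (e : κ → D →⋆ₐ[ℂ] A) :
    (⨆ j, (e j).range) = StarAlgebra.adjoin ℂ (⋃ j, Set.range (e j)) := by
  apply le_antisymm
  · refine iSup_le fun j => ?_
    rintro x ⟨y, rfl⟩
    exact StarAlgebra.subset_adjoin ℂ _ (Set.mem_iUnion.2 ⟨j, y, rfl⟩)
  · refine StarAlgebra.adjoin_le ?_
    refine Set.iUnion_subset fun j => ?_
    rintro x ⟨y, rfl⟩
    exact (le_iSup (fun j => (e j).range) j) ⟨y, rfl⟩

theorem toRFP1 {κ D A : Type} [CStarAlgebra D] [CStarAlgebra A] {t : D → ℂ} {φ : A →ₗ[ℂ] ℂ}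
    {e : κ → D →⋆ₐ[ℂ] A} (h : IsReducedFreePower t φ e) :
    FZ.IsRFP (J := κ) (fun _ => D) (fun _ => t) φ e where
  one := h.one
  nonneg := h.pos
  tr := h.marginal
  free := by
    intro w hw hc hz
    have := h.free (w.map fun z => (z.1, z.2)) (by simpa using hw)
      (by rw [List.isChain_map]; exact hc)
      (by
        intro z hz'
        obtain ⟨y, hy, rfl⟩ := List.mem_map.1 hz'
        exact hz y hy)
    rwa [List.map_map] at this
  gen := by rw [← gen_eq]; exact h.generating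
  gns := h.gns_faithful

theorem ofRFP1 {κ D A : Type} [CStarAlgebra D] [CStarAlgebra A] {t : D → ℂ} {φ : A →ₗ[ℂ] ℂ}
    {e : κ → D →⋆ₐ[ℂ] A} (h : FZ.IsRFP (J := κ) (fun _ => D) (fun _ => t) φ e) :
    IsReducedFreePower t φ e where
  one := h.one
  pos := h.nonneg
  marginal := h.tr
  free := by
    intro w hw hc hz
    have := h.free (w.map fun z => (⟨z.1, z.2⟩ : Σ _ : κ, D)) (by simpa using hw)
      (by rw [List.isChain_map]; exact hc)
      (by
        intro z hz'
        obtain ⟨y, hy, rfl⟩ := List.mem_map.1 hz'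
        exact hz y hy)
    rwa [List.map_map] at this
  generating := by rw [gen_eq]; exact h.gen
  gns_faithful := h.gns

theorem sup_eq {A B E : Type} [CStarAlgebra A] [CStarAlgebra B] [CStarAlgebra E]
    (i : A →⋆ₐ[ℂ] E) (j : B →⋆ₐ[ℂ] E) :
    i.range ⊔ j.range = StarAlgebra.adjoin ℂ (⋃ b, Set.range (ee i j b)) := by
  apply le_antisymm
  · refine sup_le ?_ ?_
    · rintro x ⟨y, rfl⟩
      exact StarAlgebra.subset_adjoin ℂ _ (Set.mem_iUnion.2 ⟨true, y, rfl⟩)
    · rintro x ⟨y, rfl⟩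
      exact StarAlgebra.subset_adjoin ℂ _ (Set.mem_iUnion.2 ⟨false, y, rfl⟩)
  · refine StarAlgebra.adjoin_le ?_
    refine Set.iUnion_subset ?_
    rintro (_ | _)
    · rintro x ⟨y, rfl⟩
      exact (le_sup_right : j.range ≤ i.range ⊔ j.range) ⟨y, rfl⟩
    · rintro x ⟨y, rfl⟩
      exact (le_sup_left : i.range ≤ i.range ⊔ j.range) ⟨y, rfl⟩

/-- a letter of the disjoint union -/
def toSum {A B : Type} : (Σ b, DD A B b) → A ⊕ B
  | ⟨true, a⟩ => Sum.inl a
  | ⟨false, b⟩ => Sum.inr b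

/-- converse -/
def ofSum {A B : Type} : A ⊕ B → (Σ b, DD A B b)
  | Sum.inl a => ⟨true, a⟩
  | Sum.inr b => ⟨false, b⟩

theorem toRFP {A B E : Type} [CStarAlgebra A] [CStarAlgebra B] [CStarAlgebra E] {φ : A → ℂ}
    {ψ : B → ℂ} {θ : E →ₗ[ℂ] ℂ} {i : A →⋆ₐ[ℂ] E} {j : B →⋆ₐ[ℂ] E}
    (h : IsReducedFreeProduct φ ψ θ i j) : FZ.IsRFP (DD A B) (tt φ ψ) θ (ee i j) where
  one := h.one
  nonneg := h.pos
  tr := by
    rintro (_ | _) x
    · exact h.right x
    · exact h.left x
  free := by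
    intro w hw hc hz
    have := h.free (w.map toSum) (by simpa using hw)
      (by
        rw [List.isChain_map]
        refine hc.imp ?_
        rintro ⟨(_ | _), x⟩ ⟨(_ | _), y⟩ hxy
        · exact absurd rfl hxy
        · exact Bool.false_ne_true
        · exact Bool.false_ne_true.symm
        · exact absurd rfl hxy)
      (by
        intro z hz'
        obtain ⟨⟨(_ | _), y⟩, hy, rfl⟩ := List.mem_map.1 hz'
        · exact hz _ hy
        · exact hz _ hy)
    rw [List.map_map] at this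
    rw [← this]
    congr 2
    refine List.map_congr_left ?_
    rintro ⟨(_ | _), y⟩ _ <;> rfl
  gen := by rw [← sup_eq]; exact h.generating
  gns := h.gns_faithful

theorem ofRFP {A B E : Type} [CStarAlgebra A] [CStarAlgebra B] [CStarAlgebra E] {φ : A → ℂ}
    {ψ : B → ℂ} {θ : E →ₗ[ℂ] ℂ} {i : A →⋆ₐ[ℂ] E} {j : B →⋆ₐ[ℂ] E}
    (h : FZ.IsRFP (DD A B) (tt φ ψ) θ (ee i j)) : IsReducedFreeProduct φ ψ θ i j where
  one := h.one
  pos := h.nonneg
  left := fun a => h.tr true a
  right := fun b => h.tr false b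
  free := by
    intro w hw hc hz
    have := h.free (w.map ofSum) (by simpa using hw)
      (by
        rw [List.isChain_map]
        refine hc.imp ?_
        rintro (x | x) (y | y) hxy
        · exact absurd rfl hxy
        · exact Bool.false_ne_true.symm
        · exact Bool.false_ne_true
        · exact absurd rfl hxy)
      (by
        intro z hz'
        obtain ⟨(y | y), hy, rfl⟩ := List.mem_map.1 hz'
        · exact hz _ hy
        · exact hz _ hy)
    rw [List.map_map] at this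
    rw [← this]
    congr 2
    refine List.map_congr_left ?_
    rintro (y | y) _ <;> rfl
  generating := by rw [sup_eq]; exact h.gen
  gns_faithful := h.gns

/-- existence of the reduced free product -/
theorem exists_rfp {A B : Type} [CStarAlgebra A] [CStarAlgebra B] (φ : A →ₗ[ℂ] ℂ)
    (ψ : B →ₗ[ℂ] ℂ) (hφ : FP.FTS φ) (hψ : FP.FTS ψ) :
    ∃ (E : Type) (_ : CStarAlgebra E) (θ : E →ₗ[ℂ] ℂ) (i : A →⋆ₐ[ℂ] E) (j : B →⋆ₐ[ℂ] E),
      IsReducedFreeProduct φ ψ θ i j := by
  let tD : ∀ b, DD A B b →ₗ[ℂ] ℂ := fun b => match b with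
    | true => φ
    | false => ψ
  have htD : ∀ b, FP.FTS (tD b) := by
    rintro (_ | _)
    · exact hψ
    · exact hφ
  obtain ⟨E, iE, θ, e, hR⟩ := FZ.All.ex Bool (DD A B) (instDD A B) tD htD
  have h1 := FZ.T_GNSB.t_GNSB Bool (DD A B) (fun b => tD b) E θ e hR
  have h2 : (fun b => (tD b : DD A B b → ℂ)) = tt φ ψ := by
    funext b
    cases b <;> rfl
  have h3 : e = ee (e true) (e false) := by
    funext b
    cases b <;> rfl
  rw [h2, h3] at h1
  exact ⟨E, iE, θ, e true, e false, ofRFP h1⟩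

/-- `half` is a faithful tracial state. -/
theorem half_fts : ∃ t : (ℂ × ℂ) →ₗ[ℂ] ℂ, FP.FTS t ∧ ∀ x, t x = half x := by
  refine ⟨{ toFun := half, map_add' := ?_, map_smul' := ?_ }, ?_, fun _ => rfl⟩
  · intro x y
    simp only [half, Prod.fst_add, Prod.snd_add]
    ring
  · intro c x
    simp only [half, Prod.smul_fst, Prod.smul_snd, smul_eq_mul, RingHom.id_apply]
    ring
  · have key : ∀ x : ℂ × ℂ, half (star x * x) =
        (((‖x.1‖ ^ 2 + ‖x.2‖ ^ 2) / 2 : ℝ) : ℂ) := by
      intro x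
      have h1 : star x.1 * x.1 = ((‖x.1‖ ^ 2 : ℝ) : ℂ) := by
        rw [Complex.star_def, mul_comm, Complex.mul_conj, Complex.normSq_eq_norm_sq]
      have h2 : star x.2 * x.2 = ((‖x.2‖ ^ 2 : ℝ) : ℂ) := by
        rw [Complex.star_def, mul_comm, Complex.mul_conj, Complex.normSq_eq_norm_sq]
      simp only [half, Prod.fst_mul, Prod.snd_mul, Prod.fst_star, Prod.snd_star, h1, h2]
      push_cast
      ring
    refine ⟨?_, ?_, ?_, ?_, ?_, ?_⟩
    · change half 1 = 1
      simp [half]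
    · intro x y
      change half (x * y) = half (y * x)
      rw [mul_comm]
    · intro x
      change half (star x) = conj (half x)
      have h2 : conj (2 : ℂ) = 2 := Complex.conj_ofNat 2
      simp [half, h2]
    · intro x
      change 0 ≤ (half (star x * x)).re
      rw [key, Complex.ofReal_re]
      positivity
    · intro x hx
      change (half (star x * x)).re = 0 at hx
      rw [key, Complex.ofReal_re] at hx
      have h1 : ‖x.1‖ = 0 := by nlinarith [sq_nonneg ‖x.1‖, sq_nonneg ‖x.2‖]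
      have h2 : ‖x.2‖ = 0 := by nlinarith [sq_nonneg ‖x.1‖, sq_nonneg ‖x.2‖]
      exact Prod.ext (norm_eq_zero.1 h1) (norm_eq_zero.1 h2)
    · intro x
      change ‖half x‖ ≤ ‖x‖
      have h1 : ‖x.1‖ ≤ ‖x‖ := norm_fst_le x
      have h2 : ‖x.2‖ ≤ ‖x‖ := norm_snd_le x
      have h3 : ‖x.1 + x.2‖ ≤ ‖x.1‖ + ‖x.2‖ := norm_add_le _ _
      rw [half, norm_div]
      have h4 : ‖(2 : ℂ)‖ = 2 := by simp
      rw [h4]
      linarith

/-- **Theorem.** The reduced free product `(P, τ) = (ℂ ⊕ ℂ)^{*∞}` of countably infinitely many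
copies of `(ℂ ⊕ ℂ, half)` exists. If `(P, τ)` is such a reduced free product and `d ≥ 1`, then the
reduced free product of `C([0,1]^d)` (with the Lebesgue trace) and `(P, τ)` exists, and it is
isomorphic to `P`, by an isomorphism which carries the free product state to `τ`. -/
theorem result :
    (∃ (P : Type) (_ : CStarAlgebra P) (τ : P →ₗ[ℂ] ℂ) (e : ℕ → ℂ × ℂ →⋆ₐ[ℂ] P),
      IsReducedFreePower half τ e) ∧
    ∀ (P : Type) [CStarAlgebra P] (τ : P →ₗ[ℂ] ℂ) (e : ℕ → ℂ × ℂ →⋆ₐ[ℂ] P),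
      IsReducedFreePower half τ e → ∀ d : ℕ, 1 ≤ d →
      (∃ (E : Type) (_ : CStarAlgebra E) (θ : E →ₗ[ℂ] ℂ)
        (i : C(Fin d → unitInterval, ℂ) →⋆ₐ[ℂ] E) (j : P →⋆ₐ[ℂ] E),
        IsReducedFreeProduct (lebCube d) τ θ i j) ∧
      ∀ (E : Type) [CStarAlgebra E] (θ : E →ₗ[ℂ] ℂ) (i : C(Fin d → unitInterval, ℂ) →⋆ₐ[ℂ] E)
        (j : P →⋆ₐ[ℂ] E), IsReducedFreeProduct (lebCube d) τ θ i j →
        ∃ Φ : E ≃⋆ₐ[ℂ] P, ∀ x, τ (Φ x) = θ x := by
  have tl : ∀ x y : ℂ × ℂ, half (x * y) = half (y * x) := fun x y => by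
    rw [mul_comm]
  refine ⟨?_, ?_⟩
  · obtain ⟨l, hl, hleb⟩ := half_fts
    obtain ⟨W, iW, τW, g, hW⟩ := FZ.All.ex ℕ (fun _ => ℂ × ℂ)
      (fun _ => inferInstance) (fun _ => l) (fun _ => hl)
    have h1 := FZ.T_GNSB.t_GNSB ℕ (fun _ => ℂ × ℂ) (fun _ x => l x) W τW g hW
    have h2 : (fun (_ : ℕ) (x : ℂ × ℂ) => l x) = fun _ => half := by
      funext k x
      exact hleb x
    rw [h2] at h1
    exact ⟨W, iW, τW, g, ofRFP1 h1⟩
  · intro P _ τ e h d hd
    have hR := FZ.T_GNSF.t_GNSF FZ.T_TRC.t_TRC ℕ (fun _ => ℂ × ℂ) (fun _ => half) P τ e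
      (fun _ => tl) (toRFP1 h)
    have tlc : ∀ x y : C(Fin d → unitInterval, ℂ), lebCube d (x * y) = lebCube d (y * x) :=
      fun x y => by rw [mul_comm]
    obtain ⟨ln, hln, hlebn⟩ := Pool.Agent.N300.UN.All.lebnt d
    have hlebn' : (ln : C(Fin d → unitInterval, ℂ) → ℂ) = lebCube d := funext hlebn
    refine ⟨?_, ?_⟩
    · obtain ⟨E, iE, θ, i, j, hE⟩ := exists_rfp ln τ hln hR.fts
      rw [hlebn'] at hE
      exact ⟨E, iE, θ, i, j, hE⟩
    · intro E _ θ i j hE
      have K := FZ.T_GNSF.t_GNSF FZ.T_TRC.t_TRC Bool _ _ E θ _ (by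
        rintro (_ | _) x y
        · exact hR.fts.comm x y
        · exact tlc x y) (toRFP hE)
      refine Pool.Agent.N300.UN.All.res1c d hd P E τ e hR θ i j K.fts hE.left hE.right ?_ ?_
      · have hfr := K.free
        have hEq : (fun b : Bool => if b then i.range else j.range) =
            fun b => (ee i j b).range := by
          funext b
          cases b <;> rfl
        rw [hEq]
        exact hfr
      · have hgen := K.gen
        rw [← hgen]
        congr 2
        ext x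
        simp only [Set.mem_union, Set.mem_iUnion]
        constructor
        · rintro (hx | hx)
          · exact ⟨true, hx⟩
          · exact ⟨false, hx⟩
        · rintro ⟨(_ | _), hx⟩
          · exact Or.inr hx
          · exact Or.inl hx

end Pool.Agent.Results.MP_1cc182_an.CubeAbsorption
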